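import Mathlib
import Pool.Agent.V5helper11.TypeB.Defs
import Pool.Agent.V5helper11.TypeB.Final

/-! MP_b3c0e4_co: every type B permutahedron of dimension at least two is facet-Hamiltonian. -/

namespace Pool.Agent.Results.MP_b3c0e4_co.FacetHamiltonian

open Pool.Agent.V5helper11.TypeB

/-- For every `n ≥ 2` the type B permutahedron, the convex hull in `ℝⁿ` of the signed permutation
vectors, is facet-Hamiltonian: its skeleton contains a cycle whose part in each facet is nonempty
and connected. -/
theorem result (n : ℕ) (hn : 2 ≤ n) : FacetHamiltonian (typeBPermutahedron n) :=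
  typeB_facetHamiltonian n hn

end Pool.Agent.Results.MP_b3c0e4_co.FacetHamiltonian
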